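import Pool.Agent.H13.LN.Targets

/-!
# `MP_559314_gt`, row HFO (helper74): the four term relation for lists of blocks
-/

set_option autoImplicit false
set_option linter.unusedSimpArgs false

open Finset Pool.Agent.H59.LIN Pool.Agent.H13.LN

namespace Pool.Agent.H74.LNT

/-! ### the positions 0, 1, 2 -/

section pos

variable {N : ℕ}

theorem n01 : (0 : Fin (N + 3)) ≠ 1 := by
  intro h
  have := congrArg Fin.val h
  simp at this

theorem n02 : (0 : Fin (N + 3)) ≠ 2 := by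
  intro h
  have h1 := congrArg Fin.val h
  rw [Fin.val_two, Fin.val_zero] at h1
  omega

theorem n12 : (1 : Fin (N + 3)) ≠ 2 := by
  intro h
  have h1 := congrArg Fin.val h
  rw [Fin.val_two, Fin.val_one] at h1
  omega

theorem tr0_0 : tr (0 : Fin (N + 2)) 0 = 1 := Equiv.swap_apply_left _ _
theorem tr0_1 : tr (0 : Fin (N + 2)) 1 = 0 := Equiv.swap_apply_right _ _
theorem tr0_2 : tr (0 : Fin (N + 2)) 2 = 2 :=
  Equiv.swap_apply_of_ne_of_ne n02.symm n12.symm
theorem tr1_0 : tr (1 : Fin (N + 2)) 0 = 0 := Equiv.swap_apply_of_ne_of_ne n01 n02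
theorem tr1_1 : tr (1 : Fin (N + 2)) 1 = 2 := Equiv.swap_apply_left _ _
theorem tr1_2 : tr (1 : Fin (N + 2)) 2 = 1 := Equiv.swap_apply_right _ _

theorem tr0_n {q : Fin (N + 3)} (h0 : q ≠ 0) (h1 : q ≠ 1) : tr (0 : Fin (N + 2)) q = q :=
  Equiv.swap_apply_of_ne_of_ne h0 h1
theorem tr1_n {q : Fin (N + 3)} (h1 : q ≠ 1) (h2 : q ≠ 2) : tr (1 : Fin (N + 2)) q = q :=
  Equiv.swap_apply_of_ne_of_ne h1 h2

theorem m0 (q : Fin (N + 3)) : (q = (0 : Fin (N + 2)).castSucc ∨ q = (0 : Fin (N + 2)).succ) ↔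
    (q = 0 ∨ q = 1) := Iff.rfl
theorem m1 (q : Fin (N + 3)) : (q = (1 : Fin (N + 2)).castSucc ∨ q = (1 : Fin (N + 2)).succ) ↔
    (q = 1 ∨ q = 2) := Iff.rfl

/-- the four beginnings of words, with one more crossing -/
def EE1 (N : ℕ) : Wd (N + 2) := [(0, true), (1, false), (1, true), (0, false)]
def EE2 (N : ℕ) : Wd (N + 2) :=
  [(0, true), (1, false), (0, false), (0, true), (1, false), (0, false)]
def EE3 (N : ℕ) : Wd (N + 2) := [(1, false), (1, true), (0, true), (0, false)]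
def EE4 (N : ℕ) : Wd (N + 2) :=
  [(1, false), (0, false), (0, true), (1, false), (0, true), (0, false)]

/-- a word which is the identity and has the given blocks -/
structure Pt (E : Wd (N + 2)) (P0 P1 P2 : List ℕ) : Prop where
  nd : nd E = 2
  run : ∀ p, run E p = p
  e0 : ev 0 E 0 = P0
  e1 : ev 0 E 1 = P1
  e2 : ev 0 E 2 = P2
  en : ∀ q, q ≠ 0 → q ≠ 1 → q ≠ 2 → ev 0 E q = []

theorem cases3 (q : Fin (N + 3)) : q = 0 ∨ q = 1 ∨ q = 2 ∨ (q ≠ 0 ∧ q ≠ 1 ∧ q ≠ 2) := by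
  tauto

theorem pt1 : Pt (EE1 N) [0, 1] [0] [1] := by
  refine ⟨rfl, fun p => ?_, ?_, ?_, ?_, fun q h0 h1 h2 => ?_⟩
  · rcases cases3 p with rfl | rfl | rfl | ⟨h0, h1, h2⟩ <;>
      simp_all only [EE1, run, tr0_0, tr0_1, tr0_2, tr1_0, tr1_1, tr1_2, tr0_n, tr1_n, ne_eq,
        not_false_eq_true]
  all_goals simp_all [EE1, ev, m0, m1, tr0_0, tr0_1, tr0_2, tr1_0, tr1_1, tr1_2, tr0_n, tr1_n,
    n01, n02, n12, n01.symm, n02.symm, n12.symm]

theorem pt2 : Pt (EE2 N) [0] [0, 1] [1] := by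
  refine ⟨rfl, fun p => ?_, ?_, ?_, ?_, fun q h0 h1 h2 => ?_⟩
  · rcases cases3 p with rfl | rfl | rfl | ⟨h0, h1, h2⟩ <;>
      simp_all only [EE2, run, tr0_0, tr0_1, tr0_2, tr1_0, tr1_1, tr1_2, tr0_n, tr1_n, ne_eq,
        not_false_eq_true]
  all_goals simp_all [EE2, ev, m0, m1, tr0_0, tr0_1, tr0_2, tr1_0, tr1_1, tr1_2, tr0_n, tr1_n,
    n01, n02, n12, n01.symm, n02.symm, n12.symm]

theorem pt3 : Pt (EE3 N) [1] [0, 1] [0] := by
  refine ⟨rfl, fun p => ?_, ?_, ?_, ?_, fun q h0 h1 h2 => ?_⟩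
  · rcases cases3 p with rfl | rfl | rfl | ⟨h0, h1, h2⟩ <;>
      simp_all only [EE3, run, tr0_0, tr0_1, tr0_2, tr1_0, tr1_1, tr1_2, tr0_n, tr1_n, ne_eq,
        not_false_eq_true]
  all_goals simp_all [EE3, ev, m0, m1, tr0_0, tr0_1, tr0_2, tr1_0, tr1_1, tr1_2, tr0_n, tr1_n,
    n01, n02, n12, n01.symm, n02.symm, n12.symm]

theorem pt4 : Pt (EE4 N) [0, 1] [1] [0] := by
  refine ⟨rfl, fun p => ?_, ?_, ?_, ?_, fun q h0 h1 h2 => ?_⟩
  · rcases cases3 p with rfl | rfl | rfl | ⟨h0, h1, h2⟩ <;>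
      simp_all only [EE4, run, tr0_0, tr0_1, tr0_2, tr1_0, tr1_1, tr1_2, tr0_n, tr1_n, ne_eq,
        not_false_eq_true]
  all_goals simp_all [EE4, ev, m0, m1, tr0_0, tr0_1, tr0_2, tr1_0, tr1_1, tr1_2, tr0_n, tr1_n,
    n01, n02, n12, n01.symm, n02.symm, n12.symm]

end pos

/-! ### lists -/

section lists

variable {α : Type}

theorem mid_lt (A B : List α) (x : α) (k : ℕ) (h : k < A.length) :
    (A ++ x :: B)[k]? = A[k]? := List.getElem?_append_left h

theorem mid_eq (A B : List α) (x : α) : (A ++ x :: B)[A.length]? = some x := by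
  rw [List.getElem?_append_right le_rfl]
  simp

theorem mid_gt (A B : List α) (x : α) (k : ℕ) : (A ++ x :: B)[A.length + 1 + k]? = B[k]? := by
  rw [List.getElem?_append_right (by omega)]
  have h : A.length + 1 + k - A.length = k + 1 := by omega
  rw [h, List.getElem?_cons_succ]

end lists

/-- the list with the blocks `P0`, `P1`, `P2` -/
def LL (L₁ L₂ L₃ : List (List ℕ)) (P0 P1 P2 : List ℕ) : List (List ℕ) :=
  P0 :: (s2 L₁ ++ P1 :: (s2 L₂ ++ P2 :: s2 L₃))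

/-- the list with three empty blocks -/
def LE (L₁ L₂ L₃ : List (List ℕ)) : List (List ℕ) := [] :: (L₁ ++ [] :: (L₂ ++ [] :: L₃))

section get

variable (L₁ L₂ L₃ : List (List ℕ)) (P0 P1 P2 : List ℕ)

theorem s2_length (L : List (List ℕ)) : (s2 L).length = L.length := List.length_map _

theorem s2_get (L : List (List ℕ)) (k : ℕ) : (s2 L)[k]? = (L[k]?).map (List.map (· + 2)) :=
  List.getElem?_map

theorem LL_1 : (LL L₁ L₂ L₃ P0 P1 P2)[L₁.length + 1]? = some P1 := by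
  unfold LL
  rw [List.getElem?_cons_succ]
  have h := mid_eq (s2 L₁) (s2 L₂ ++ P2 :: s2 L₃) P1
  rwa [s2_length] at h

theorem LL_2 : (LL L₁ L₂ L₃ P0 P1 P2)[L₁.length + 1 + L₂.length + 1]? = some P2 := by
  unfold LL
  rw [List.getElem?_cons_succ]
  have h := mid_gt (s2 L₁) (s2 L₂ ++ P2 :: s2 L₃) P1 (s2 L₂).length
  rw [mid_eq] at h
  rwa [s2_length, s2_length] at h

theorem LE_1 : (LE L₁ L₂ L₃)[L₁.length + 1]? = some [] := by
  unfold LE
  rw [List.getElem?_cons_succ]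
  exact mid_eq L₁ (L₂ ++ [] :: L₃) []

theorem LE_2 : (LE L₁ L₂ L₃)[L₁.length + 1 + L₂.length + 1]? = some [] := by
  unfold LE
  rw [List.getElem?_cons_succ, mid_gt, mid_eq]

theorem LL_o (j : ℕ) (h0 : j ≠ 0) (h1 : j ≠ L₁.length + 1)
    (h2 : j ≠ L₁.length + 1 + L₂.length + 1) :
    (LL L₁ L₂ L₃ P0 P1 P2)[j]? = ((LE L₁ L₂ L₃)[j]?).map (List.map (· + 2)) := by
  obtain ⟨k, rfl⟩ := Nat.exists_eq_succ_of_ne_zero h0
  unfold LL LE
  rw [Nat.succ_eq_add_one, List.getElem?_cons_succ, List.getElem?_cons_succ]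
  rcases lt_trichotomy k L₁.length with h | h | h
  · rw [mid_lt _ _ _ k (by rwa [s2_length]), mid_lt _ _ _ k h, s2_get]
  · exact absurd (by omega) h1
  · obtain ⟨m, rfl⟩ : ∃ m, k = L₁.length + 1 + m := ⟨k - L₁.length - 1, by omega⟩
    rw [mid_gt]
    have h3 := mid_gt (s2 L₁) (s2 L₂ ++ P2 :: s2 L₃) P1 m
    rw [s2_length] at h3
    rw [h3]
    rcases lt_trichotomy m L₂.length with h | h | h
    · rw [mid_lt _ _ _ m (by rwa [s2_length]), mid_lt _ _ _ m h, s2_get]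
    · exact absurd (by omega) h2
    · obtain ⟨l, rfl⟩ : ∃ l, m = L₂.length + 1 + l := ⟨m - L₂.length - 1, by omega⟩
      rw [mid_gt]
      have h4 := mid_gt (s2 L₂) (s2 L₃) P2 l
      rw [s2_length] at h4
      rw [h4, s2_get]

end get

/-- a permutation with three prescribed values -/
theorem exists_perm {N : ℕ} (a b : Fin (N + 3)) (ha : a ≠ 0) (hb : b ≠ 0) (hab : a ≠ b) :
    ∃ τ : Equiv.Perm (Fin (N + 3)), τ 0 = 0 ∧ τ a = 1 ∧ τ b = 2 := by
  refine ⟨(Equiv.swap a 1).trans (Equiv.swap (Equiv.swap a 1 b) 2), ?_, ?_, ?_⟩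
  · rw [Equiv.trans_apply, Equiv.swap_apply_of_ne_of_ne ha.symm n01,
      Equiv.swap_apply_of_ne_of_ne _ n02]
    intro h
    have h1 : Equiv.swap a 1 0 = (0 : Fin (N + 3)) :=
      Equiv.swap_apply_of_ne_of_ne ha.symm n01
    exact hb ((Equiv.swap a 1).injective (h1.trans h)).symm
  · rw [Equiv.trans_apply, Equiv.swap_apply_left, Equiv.swap_apply_of_ne_of_ne _ n12]
    intro h
    have h1 : Equiv.swap a 1 a = (1 : Fin (N + 3)) := Equiv.swap_apply_left _ _
    exact hab ((Equiv.swap a 1).injective (h1.trans h))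
  · rw [Equiv.trans_apply, Equiv.swap_apply_left]

theorem hfo_one (hRUN : T_RUN) (hBL2 : T_BL2) (hEVA : T_EVA) {B : Type} [AddCommGroup B]
    (d e : ℕ) (hd : d = e + 2) (g : (n : ℕ) → Wd n → B) (H : List (List ℕ) → B)
    (hGH : GH d g H) (L₁ L₂ L₃ : List (List ℕ)) (N : ℕ)
    (hN : N = L₁.length + L₂.length + L₃.length) (f : Wd (N + 2)) (hnd : nd f = e)
    (τ : Equiv.Perm (Fin (N + 3))) (j2 j3 : Fin (N + 3)) (hj2 : (j2 : ℕ) = L₁.length + 1)
    (hj3 : (j3 : ℕ) = L₁.length + 1 + L₂.length + 1) (h0 : τ 0 = 0) (h1 : τ j2 = 1)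
    (h2 : τ j3 = 2) (hf : ∀ j : Fin (N + 2 + 1), (LE L₁ L₂ L₃)[(j : ℕ)]? = some (ev 0 f (τ j)))
    (hr : ∀ j : Fin (N + 2 + 1), run f (τ j) = τ (finRotate (N + 2 + 1) j))
    (E : Wd (N + 2)) (P0 P1 P2 : List ℕ) (hE : Pt E P0 P1 P2) :
    Knot (E ++ f) ∧ nd (E ++ f) = d ∧ H (LL L₁ L₂ L₃ P0 P1 P2) = g (N + 2) (E ++ f) := by
  have hev : ∀ q, ev 0 (E ++ f) q = ev 0 E q ++ (ev 0 f q).map (· + 2) := by
    intro q
    rw [hEVA.1, hE.nd, hE.run, hEVA.2.1 (N + 2) 0 2 f q]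
  have hndE : nd (E ++ f) = d := by
    have h3 : nd (E ++ f) = nd E + nd f := List.countP_append
    rw [h3, hE.nd, hnd, hd, add_comm]
  have hblk := hBL2 (N + 2) (LL L₁ L₂ L₃ P0 P1 P2) τ (E ++ f) (by
      unfold LL
      simp only [List.length_cons, List.length_append, s2_length]
      omega) (by
      intro j
      rw [hev]
      by_cases hj0 : j = 0
      · subst hj0
        have h3 := hf 0
        rw [h0] at h3 ⊢
        have h4 : ev 0 f 0 = [] := (Option.some_injective _ h3).symm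
        rw [h4, hE.e0]
        simp [LL]
      by_cases hj1 : j = j2
      · subst hj1
        have h3 := hf j
        rw [h1, hj2, LE_1] at h3
        have h4 : ev 0 f 1 = [] := (Option.some_injective _ h3).symm
        rw [h1, hj2, LL_1, h4, hE.e1]
        simp
      by_cases hj2' : j = j3
      · subst hj2'
        have h3 := hf j
        rw [h2, hj3, LE_2] at h3
        have h4 : ev 0 f 2 = [] := (Option.some_injective _ h3).symm
        rw [h2, hj3, LL_2, h4, hE.e2]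
        simp
      · have a0 : τ j ≠ 0 := fun h => hj0 (τ.injective (h.trans h0.symm))
        have a1 : τ j ≠ 1 := fun h => hj1 (τ.injective (h.trans h1.symm))
        have a2 : τ j ≠ 2 := fun h => hj2' (τ.injective (h.trans h2.symm))
        rw [hE.en _ a0 a1 a2, LL_o L₁ L₂ L₃ P0 P1 P2 j
          (fun h => hj0 (Fin.ext (by rw [h]; rfl))) (fun h => hj1 (Fin.ext (h.trans hj2.symm)))
          (fun h => hj2' (Fin.ext (h.trans hj3.symm))), hf j]
        rfl) (by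
      intro j
      rw [hRUN.1, hE.run]
      exact hr j)
  refine ⟨hblk.1, hndE, ?_⟩
  rw [← hblk.2]
  exact hGH.2 _ _ _ hblk.1 hndE

/-- (HFO) the four term relation -/
theorem hfo (hRUN : T_RUN) (hC2 : T_C2) (hBL2 : T_BL2) (_hBLV : T_BLV) (hEVA : T_EVA) :
    T_HFO := by
  intro B _ d g H hGH e L₁ L₂ L₃ hd hVL
  have hj2 : L₁.length + 1 < L₁.length + L₂.length + L₃.length + 3 := by omega
  have hj3 : L₁.length + 1 + L₂.length + 1 < L₁.length + L₂.length + L₃.length + 3 := by omega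
  obtain ⟨τ, h0, h1, h2⟩ := exists_perm (N := L₁.length + L₂.length + L₃.length)
    ⟨L₁.length + 1, hj2⟩ ⟨L₁.length + 1 + L₂.length + 1, hj3⟩
    (fun h => by
      have h3 := congrArg Fin.val h
      rw [Fin.val_zero] at h3
      exact absurd h3 (Nat.succ_ne_zero _))
    (fun h => by
      have h3 := congrArg Fin.val h
      rw [Fin.val_zero] at h3
      exact absurd h3 (Nat.succ_ne_zero _))
    (fun h => by
      have h3 := congrArg Fin.val h
      simp only at h3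
      omega)
  obtain ⟨f, hnd, hf, hr⟩ := hC2 e (L₁.length + L₂.length + L₃.length + 2) (LE L₁ L₂ L₃) τ hVL (by
    unfold LE
    simp only [List.length_cons, List.length_append]
    omega)
  have key := hfo_one hRUN hBL2 hEVA d e hd g H hGH L₁ L₂ L₃ _ rfl f hnd τ _ _ rfl rfl h0 h1 h2
    hf hr
  obtain ⟨k1, d1, e1⟩ := key _ _ _ _ pt1
  obtain ⟨-, -, e2⟩ := key _ _ _ _ pt2
  obtain ⟨-, -, e3⟩ := key _ _ _ _ pt3
  obtain ⟨-, -, e4⟩ := key _ _ _ _ pt4
  have h4 := hGH.1.four (L₁.length + L₂.length + L₃.length + 2) [] ((0, false) :: f) 0 1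
    (by simp) k1 d1
  unfold LL at e1 e2 e3 e4
  rw [e1, e2, e3, e4]
  exact h4

end Pool.Agent.H74.LNT
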